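import Mathlib

set_option autoImplicit false

namespace Pool.Agent.Results.MP_cfde94_co.NoNearAlpha

def IsBeta {V : Type} (G : SimpleGraph V) (b : V → ℕ) : Prop :=
  Function.Injective b ∧ (∀ v, b v ≤ G.edgeSet.ncard) ∧
    Set.BijOn (Sym2.lift ⟨fun u v => Nat.dist (b u) (b v), fun _ _ => Nat.dist_comm _ _⟩)
      G.edgeSet (Set.Icc 1 G.edgeSet.ncard)

def IsNearAlpha {V : Type} (G : SimpleGraph V) (b : V → ℕ) : Prop :=
  IsBeta G b ∧ ∃ small : Set V, (∀ v ∈ small, ∀ u, G.Adj v u → b v < b u) ∧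
    ∀ v ∉ small, ∀ u, G.Adj v u → b u < b v

def EL : Finset (Sym2 (Fin 7)) := {s(3, 4), s(1, 3), s(2, 5), s(2, 6), s(0, 5), s(0, 6)}

def G0 : SimpleGraph (Fin 7) := SimpleGraph.fromEdgeSet (EL : Set (Sym2 (Fin 7)))

instance : DecidableRel G0.Adj := by unfold G0; infer_instance

theorem edge_eq : G0.edgeSet = (EL : Set (Sym2 (Fin 7))) := by
  rw [G0, SimpleGraph.edgeSet_fromEdgeSet, sdiff_eq_left, Set.disjoint_left]
  have : ∀ e ∈ EL, ¬ e.IsDiag := by decide
  exact this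

def Inn (a c f g : ℕ) : Prop := ∀ b ∈ List.range 7, ∀ d ∈ List.range 7, ∀ e ∈ List.range 7,
    (b < d ∧ e < d ∨ d < b ∧ d < e) → [a, b, c, d, e, f, g].Nodup →
    ¬ [Nat.dist d e, Nat.dist b d, Nat.dist c f, Nat.dist c g, Nat.dist a f, Nat.dist a g].Nodup

instance (a c f g : ℕ) : Decidable (Inn a c f g) := by unfold Inn; infer_instance

theorem key : ∀ a ∈ List.range 7, ∀ c ∈ List.range 7, ∀ f ∈ List.range 7, ∀ g ∈ List.range 7,
    (a < f ∧ a < g ∧ c < f ∧ c < g ∨ f < a ∧ g < a ∧ f < c ∧ g < c) →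
    [Nat.dist c f, Nat.dist c g, Nat.dist a f, Nat.dist a g].Nodup → Inn a c f g := by
  decide +kernel

theorem result : ∃ (V : Type) (_ : Finite V) (G : SimpleGraph V), (∀ v, ∃ u, G.Adj v u) ∧
    G.Colorable 2 ∧ (∃ b, IsBeta G b) ∧ ¬ ∃ b, IsNearAlpha G b := by
  have hc : G0.edgeSet.ncard = 6 := by rw [edge_eq, Set.ncard_coe_finset]; decide
  refine ⟨Fin 7, inferInstance, G0, by decide,
    ⟨SimpleGraph.Coloring.mk ![0, 0, 0, 1, 0, 1, 1] (by decide)⟩,
    ⟨Fin.val, Fin.val_injective, fun v => by rw [hc]; omega, ?_⟩, ?_⟩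
  · rw [hc, edge_eq, ← Finset.coe_Icc]
    refine ⟨fun e he => ?_, fun e he e' he' => ?_, fun k hk => ?_⟩
    · revert e
      simp only [Finset.mem_coe]
      decide
    · revert e e'
      simp only [Finset.mem_coe]
      decide
    · rw [← Finset.coe_image]
      revert k
      simp only [Finset.mem_coe]
      decide
  · rintro ⟨b, ⟨hi, hle, -, hinj, -⟩, S, h1, h2⟩
    rw [hc] at hle
    rw [edge_eq] at hinj
    have hl : ∀ v, b v ∈ List.range 7 := fun v => List.mem_range.2 (Nat.lt_succ_of_le (hle v))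
    have h3 : ∀ v u w, G0.Adj v u → G0.Adj v w → b v < b u ∧ b v < b w ∨ b u < b v ∧ b w < b v := by
      intro v u w hu hw
      by_cases h : v ∈ S
      · exact Or.inl ⟨h1 v h u hu, h1 v h w hw⟩
      · exact Or.inr ⟨h2 v h u hu, h2 v h w hw⟩
    have a1 := h3 0 5 6 (by decide) (by decide)
    have a2 := h3 2 5 6 (by decide) (by decide)
    have a3 := h3 5 0 2 (by decide) (by decide)
    have a4 := h3 3 1 4 (by decide) (by decide)
    have a5 := (by decide : ([s(3, 4), s(1, 3), s(2, 5), s(2, 6), s(0, 5), s(0, 6)] :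
        List (Sym2 (Fin 7))).Nodup).map_on fun x hx y hy h =>
          hinj (by simpa [EL] using hx) (by simpa [EL] using hy) h
    exact key (b 0) (hl _) (b 2) (hl _) (b 5) (hl _) (b 6) (hl _) (by omega)
      (List.nodup_cons.1 (List.nodup_cons.1 a5).2).2 (b 1) (hl _) (b 3) (hl _) (b 4) (hl _)
      (by omega) ((by decide : ([0, 1, 2, 3, 4, 5, 6] : List (Fin 7)).Nodup).map hi) a5

end Pool.Agent.Results.MP_cfde94_co.NoNearAlpha
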